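import Mathlib

set_option autoImplicit false
open Finset

namespace Q110.DS

/-- no `a b a b` with `a < b`. -/
def Avoid {R C : Type} [LinearOrder R] [LinearOrder C] (M : R → C → Prop) : Prop :=
  ∀ a b : R, a < b → ∀ c1 c2 c3 c4 : C, c1 < c2 → c2 < c3 → c3 < c4 →
    M a c1 → M b c2 → M a c3 → M b c4 → False

/-- the inductive structure -/
structure Good (k m : ℕ) {R C : Type} [LinearOrder R] [LinearOrder C]
    (M : R → C → Prop) (RR : Finset R) (CC S : Finset C) (f : R → C) : Prop where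
  supp : ∀ r c, M r c → r ∈ RR ∧ c ∈ CC
  avoid : Avoid M
  SC : S ⊆ CC
  fS : ∀ r ∈ RR, f r ∈ S
  fM : ∀ r ∈ RR, M r (f r)
  ff : ∀ r c, M r c → f r ≤ c
  only : ∀ r c, c ∈ S → M r c → c = f r
  fib : ∀ c ∈ S, (RR.filter (fun r => f r = c)).card = m
  cnt : ∀ r ∈ RR, ∃ T : Finset C, T.card = k ∧ ∀ c ∈ T, M r c
  inv : ∀ a b : R, a < b → f a = f b → ∀ c1 c2, f a < c1 → c1 < c2 → M a c1 → M b c2 → False

/-- existence of the structure with given numbers -/
def Ex (k m F N : ℕ) : Prop :=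
  ∃ (R Co : Type) (_ : LinearOrder R) (_ : LinearOrder Co)
    (M : R → Co → Prop) (RR : Finset R) (CC S : Finset Co) (f : R → Co),
    Good k m M RR CC S f ∧ S.card = F ∧ CC.card = N

theorem ex_one (m : ℕ) : Ex 1 m 1 1 := by
  refine ⟨Fin m, Fin 1, inferInstance, inferInstance,
    fun _ _ => True, Finset.univ, Finset.univ, Finset.univ, fun _ => 0, ?_, by simp, by simp⟩
  constructor
  · intro r c _; exact ⟨Finset.mem_univ _, Finset.mem_univ _⟩
  · intro a b _ c1 c2 c3 c4 h
    exact absurd h (by omega)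
  · simp
  · intro r _; simp
  · intro r _; trivial
  · intro r c _; omega
  · intro r c _ _; omega
  · intro c _
    have hc : (0 : Fin 1) = c := by omega
    simp [hc]
  · intro r _
    exact ⟨Finset.univ, by simp, fun _ _ => trivial⟩
  · intro a b _ _ c1 c2 h
    exact absurd h (by omega)

theorem ex_base (k L : ℕ) (hk : 0 < k) : Ex k 1 L (L * k) := by
  classical
  refine ⟨Fin L, Fin L ×ₗ Fin k, inferInstance, inferInstance,
    fun i c => (ofLex c).1 = i, Finset.univ,
    (Finset.univ : Finset (Fin L × Fin k)).map toLex.toEmbedding,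
    (Finset.univ : Finset (Fin L)).image (fun i => toLex (i, ⟨0, hk⟩)),
    fun i => toLex (i, ⟨0, hk⟩), ?_, ?_, ?_⟩
  · constructor
    · intro r c _
      refine ⟨Finset.mem_univ _, ?_⟩
      rw [Finset.mem_map]
      exact ⟨ofLex c, Finset.mem_univ _, rfl⟩
    · intro a b hab c1 c2 c3 c4 h12 h23 _ h1 h2 h3 _
      have e1 := Prod.Lex.lt_iff.1 h12
      have e2 := Prod.Lex.lt_iff.1 h23
      rw [h1, h2] at e1
      rw [h2, h3] at e2
      rcases e1 with e1 | e1 <;> rcases e2 with e2 | e2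
      · exact absurd (e1.trans e2) (lt_irrefl _)
      · rw [e2.1] at e1; exact absurd e1 (lt_irrefl _)
      · rw [e1.1] at e2; exact absurd e2 (lt_irrefl _)
      · rw [e1.1] at hab; exact absurd hab (lt_irrefl _)
    · intro c hc
      rw [Finset.mem_map]
      exact ⟨ofLex c, Finset.mem_univ _, rfl⟩
    · intro r _
      exact Finset.mem_image_of_mem _ (Finset.mem_univ _)
    · intro r _
      rfl
    · intro r c h
      rw [Prod.Lex.le_iff]
      right
      exact ⟨h.symm, Fin.mk_le_of_le_val (Nat.zero_le _)⟩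
    · intro r c hc h
      obtain ⟨i, _, rfl⟩ := Finset.mem_image.1 hc
      have : i = r := h
      rw [this]
    · intro c hc
      obtain ⟨i, _, rfl⟩ := Finset.mem_image.1 hc
      have : (Finset.univ.filter (fun r : Fin L =>
          (toLex (r, (⟨0, hk⟩ : Fin k)) : Fin L ×ₗ Fin k) = toLex (i, ⟨0, hk⟩))) = {i} := by
        ext r
        simp
      rw [this, Finset.card_singleton]
    · intro r _
      refine ⟨(Finset.univ : Finset (Fin k)).image (fun x => toLex (r, x)), ?_, ?_⟩
      · rw [Finset.card_image_of_injective, Finset.card_univ, Fintype.card_fin]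
        intro x y h
        simpa using h
      · intro c hc
        obtain ⟨x, _, rfl⟩ := Finset.mem_image.1 hc
        rfl
    · intro a b hab h
      simp at h
      exact absurd h hab.ne
  · rw [Finset.card_image_of_injective, Finset.card_univ, Fintype.card_fin]
    intro x y h
    simpa using h
  · rw [Finset.card_map, Finset.card_univ, Fintype.card_prod, Fintype.card_fin, Fintype.card_fin]

theorem exists_rev {A B : Type} [LinearOrder A] [LinearOrder B] [Nonempty B]
    (F : Finset A) (S : Finset B)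
    (h : F.card = S.card) : ∃ g : A → B, (∀ a ∈ F, g a ∈ S) ∧
      (∀ a ∈ F, ∀ b ∈ F, a < b → g b < g a) ∧ (∀ x ∈ S, ∃ a ∈ F, g a = x) := by
  classical
  let e1 := F.orderIsoOfFin h
  let e2 := S.orderIsoOfFin rfl
  refine ⟨fun a => if ha : a ∈ F then (e2 (Fin.rev (e1.symm ⟨a, ha⟩)) : B) else
    Classical.arbitrary B, ?_, ?_, ?_⟩
  · intro a ha
    simp only [ha, dif_pos]
    exact (e2 _).2
  · intro a ha b hb hab
    simp only [ha, hb, dif_pos]
    have h1 : e1.symm ⟨a, ha⟩ < e1.symm ⟨b, hb⟩ := e1.symm.strictMono hab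
    have h2 : Fin.rev (e1.symm ⟨b, hb⟩) < Fin.rev (e1.symm ⟨a, ha⟩) := Fin.rev_lt_rev.2 h1
    exact e2.strictMono h2
  · intro x hx
    refine ⟨(e1 (Fin.rev (e2.symm ⟨x, hx⟩)) : A), (e1 _).2, ?_⟩
    have h1 : ((e1 (Fin.rev (e2.symm ⟨x, hx⟩)) : A)) ∈ F := (e1 _).2
    simp only [h1, dif_pos]
    have h2 : (⟨(e1 (Fin.rev (e2.symm ⟨x, hx⟩)) : A), h1⟩ : F) =
      e1 (Fin.rev (e2.symm ⟨x, hx⟩)) := rfl
    rw [h2]
    simp

section Step

set_option linter.unusedSectionVars false
variable {R C R' C' : Type} [LinearOrder R] [LinearOrder C] [LinearOrder R'] [LinearOrder C']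

/-- the composite matrix -/
def Mn (M : R → C → Prop) (RR : Finset R) (S : Finset C) (f : R → C) (g : R → C')
    (M' : R' → C' → Prop) (r : R ⊕ₗ (C ×ₗ R')) (c : C ×ₗ WithTop C') : Prop :=
  (∃ r0 ∈ RR, r = toLex (Sum.inl r0) ∧
    ((∃ c0, c = toLex (c0, ⊤) ∧ M r0 c0) ∨ c = toLex (f r0, (g r0 : WithTop C')))) ∨
  (∃ s ∈ S, ∃ r', r = toLex (Sum.inr (toLex (s, r'))) ∧
    ∃ x : C', c = toLex (s, (x : WithTop C')) ∧ M' r' x)

theorem Mn_inl {M : R → C → Prop} {RR : Finset R} {S : Finset C} {f : R → C} {g : R → C'}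
    {M' : R' → C' → Prop} {r0 : R} {c : C ×ₗ WithTop C'}
    (h : Mn M RR S f g M' (toLex (Sum.inl r0)) c) : r0 ∈ RR ∧
      ((∃ c0, c = toLex (c0, ⊤) ∧ M r0 c0) ∨ c = toLex (f r0, (g r0 : WithTop C'))) := by
  rcases h with ⟨r1, h1, h2, h3⟩ | ⟨s, hs, r', h2, _⟩
  · have : r0 = r1 := by simpa using h2
    subst this
    exact ⟨h1, h3⟩
  · simp at h2

theorem Mn_inr {M : R → C → Prop} {RR : Finset R} {S : Finset C} {f : R → C} {g : R → C'}
    {M' : R' → C' → Prop} {s : C} {r' : R'} {c : C ×ₗ WithTop C'}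
    (h : Mn M RR S f g M' (toLex (Sum.inr (toLex (s, r')))) c) : s ∈ S ∧
      ∃ x : C', c = toLex (s, (x : WithTop C')) ∧ M' r' x := by
  rcases h with ⟨r1, h1, h2, h3⟩ | ⟨t, ht, q', h2, h3⟩
  · simp at h2
  · have : s = t ∧ r' = q' := by simpa using h2
    obtain ⟨rfl, rfl⟩ := this
    exact ⟨ht, h3⟩

theorem row_cases (r : R ⊕ₗ (C ×ₗ R')) : (∃ r0 : R, r = toLex (Sum.inl r0)) ∨
    ∃ (s : C) (r' : R'), r = toLex (Sum.inr (toLex (s, r'))) := by
  rcases h : ofLex r with r0 | p
  · left; exact ⟨r0, by rw [← h]; rfl⟩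
  · right; exact ⟨(ofLex p).1, (ofLex p).2, by rw [show r = toLex (ofLex r) from rfl, h]; rfl⟩

theorem lexlt {a b : C} {x y : WithTop C'} : (toLex (a, x) : C ×ₗ WithTop C') < toLex (b, y) ↔
    a < b ∨ a = b ∧ x < y := by
  rw [Prod.Lex.lt_iff]; rfl

theorem lexle {a b : C} {x y : WithTop C'} : (toLex (a, x) : C ×ₗ WithTop C') ≤ toLex (b, y) ↔
    a < b ∨ a = b ∧ x ≤ y := by
  rw [Prod.Lex.le_iff]; rfl

variable {k m F' : ℕ} {M : R → C → Prop} {RR : Finset R} {CC S : Finset C} {f : R → C}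
  {M' : R' → C' → Prop} {RR' : Finset R'} {CC' S' : Finset C'} {f' : R' → C'} {g : R → C'}

theorem step_avoid (h : Good k F' M RR CC S f) (h' : Good (k + 1) m M' RR' CC' S' f')
    (hg2 : ∀ r ∈ RR, ∀ q ∈ RR, f r = f q → r < q → g q < g r) :
    Avoid (Mn M RR S f g M') := by
  intro a b hab c1 c2 c3 c4 h12 h23 h34 n1 n2 n3 n4
  rcases row_cases a with ⟨r, rfl⟩ | ⟨s, p, rfl⟩
  · rcases row_cases b with ⟨q, rfl⟩ | ⟨t, q, rfl⟩
    · have hrq : r < q := by simpa using hab
      obtain ⟨hr, m1⟩ := Mn_inl n1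
      obtain ⟨hq, m2⟩ := Mn_inl n2
      obtain ⟨_, m3⟩ := Mn_inl n3
      obtain ⟨_, m4⟩ := Mn_inl n4
      clear n1 n2 n3 n4
      have hgrq := hg2 r hr q hq
      have hfr := h.fM r hr
      have hfq := h.fM q hq
      -- the position of `a` at c3 cannot be the new one
      rcases m3 with ⟨d3, rfl, m3⟩ | rfl
      · rcases m4 with ⟨d4, rfl, m4⟩ | rfl
        · rw [lexlt] at h34
          have h34' : d3 < d4 := by simpa using h34
          rcases m1 with ⟨d1, rfl, m1⟩ | rfl
          · rcases m2 with ⟨d2, rfl, m2⟩ | rfl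
            · rw [lexlt] at h12 h23
              exact h.avoid r q hrq d1 d2 d3 d4 (by simpa using h12) (by simpa using h23) h34'
                m1 m2 m3 m4
            · rw [lexlt] at h12 h23
              have h12' : d1 < f q := by simpa using h12
              rcases h23 with h23 | ⟨h23, _⟩
              · exact h.avoid r q hrq d1 _ d3 d4 h12' h23 h34' m1 hfq m3 m4
              · -- f q = d3, so f r = f q; contradiction with d1 < f q
                have e := h.only r d3 (by rw [← h23]; exact h.fS q hq) m3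
                have := h.ff r d1 m1
                rw [← e, ← h23] at this
                exact absurd h12' (not_lt.2 this)
          · rcases m2 with ⟨d2, rfl, m2⟩ | rfl
            · rw [lexlt] at h12 h23
              have h23' : d2 < d3 := by simpa using h23
              rcases h12 with h12 | ⟨h12, _⟩
              · exact h.avoid r q hrq _ d2 d3 d4 h12 h23' h34' hfr m2 m3 m4
              · have e := h.only q d2 (by rw [← h12]; exact h.fS r hr) m2
                exact h.inv r q hrq (h12.trans e) d3 d4 (by rw [h12]; exact h23') h34' m3 m4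
            · rw [lexlt] at h12 h23
              rcases h12 with h12 | ⟨h12, h12'⟩
              · rcases h23 with h23 | ⟨h23, _⟩
                · exact h.avoid r q hrq _ _ d3 d4 h12 h23 h34' hfr hfq m3 m4
                · have e := h.only r d3 (by rw [← h23]; exact h.fS q hq) m3
                  rw [← e, ← h23] at h12
                  exact absurd h12 (lt_irrefl _)
              · have := hgrq h12 hrq
                rw [WithTop.coe_lt_coe] at h12'
                exact absurd h12' (not_lt.2 this.le)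
        · -- b at c4 is new: b's first element, but c2 < c4
          rcases m2 with ⟨d2, rfl, m2⟩ | rfl
          · have h24 := h23.trans h34
            rw [lexlt] at h24
            have h24' : d2 < f q := by simpa using h24
            exact absurd (h.ff q d2 m2) (not_le.2 h24')
          · exact absurd (h23.trans h34) (lt_irrefl _)
      · rcases m1 with ⟨d1, rfl, m1⟩ | rfl
        · have h13 := h12.trans h23
          rw [lexlt] at h13
          have h13' : d1 < f r := by simpa using h13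
          exact absurd (h.ff r d1 m1) (not_le.2 h13')
        · exact absurd (h12.trans h23) (lt_irrefl _)
    · obtain ⟨ht, x2, rfl, m2⟩ := Mn_inr n2
      obtain ⟨_, x4, rfl, m4⟩ := Mn_inr n4
      obtain ⟨hr, m1⟩ := Mn_inl n1
      obtain ⟨_, m3⟩ := Mn_inl n3
      clear n1 n2 n3 n4
      rcases m3 with ⟨d3, rfl, m3⟩ | rfl
      · rw [lexlt] at h23 h34
        have h34' : d3 < t := by simpa using h34
        rcases h23 with h23 | ⟨h23, _⟩
        · exact absurd (h23.trans h34') (lt_irrefl _)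
        · exact absurd h23 h34'.ne'
      · rcases m1 with ⟨d1, rfl, m1⟩ | rfl
        · have h13 := h12.trans h23
          rw [lexlt] at h13
          have h13' : d1 < f r := by simpa using h13
          exact absurd (h.ff r d1 m1) (not_le.2 h13')
        · exact absurd (h12.trans h23) (lt_irrefl _)
  · rcases row_cases b with ⟨q, rfl⟩ | ⟨t, q, rfl⟩
    · simp at hab
    · obtain ⟨_, x1, rfl, m1⟩ := Mn_inr n1
      obtain ⟨_, x2, rfl, m2⟩ := Mn_inr n2
      obtain ⟨_, x3, rfl, m3⟩ := Mn_inr n3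
      obtain ⟨_, x4, rfl, m4⟩ := Mn_inr n4
      rw [lexlt] at h12 h23 h34
      have hst : s = t := by
        rcases h12 with h12 | ⟨h12, _⟩
        · rcases h23 with h23 | ⟨h23, _⟩
          · exact absurd (h12.trans h23) (lt_irrefl _)
          · exact h23.symm
        · exact h12
      subst hst
      simp only [lt_self_iff_false, false_or, true_and, WithTop.coe_lt_coe] at h12 h23 h34
      have hpq : p < q := by
        rw [Sum.Lex.inr_lt_inr_iff, Prod.Lex.lt_iff] at hab
        simpa using hab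
      exact h'.avoid p q hpq x1 x2 x3 x4 h12 h23 h34 m1 m2 m3 m4

/-- special column of the composite rows -/
def fn (f : R → C) (g : R → C') (f' : R' → C') (r : R ⊕ₗ (C ×ₗ R')) : C ×ₗ WithTop C' :=
  Sum.elim (fun r0 => toLex (f r0, ((g r0 : C') : WithTop C')))
    (fun p => toLex ((ofLex p).1, ((f' (ofLex p).2 : C') : WithTop C'))) (ofLex r)

theorem fn_inl (f : R → C) (g : R → C') (f' : R' → C') (r0 : R) :
    fn f g f' (toLex (Sum.inl r0)) = toLex (f r0, ((g r0 : C') : WithTop C')) := rfl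

theorem fn_inr (f : R → C) (g : R → C') (f' : R' → C') (s : C) (r' : R') :
    fn f g f' (toLex (Sum.inr (toLex (s, r')))) = toLex (s, ((f' r' : C') : WithTop C')) := rfl

theorem step_good (h : Good k F' M RR CC S f) (h' : Good (k + 1) m M' RR' CC' S' f')
    (hg1 : ∀ r ∈ RR, g r ∈ S') (hg2 : ∀ r ∈ RR, ∀ q ∈ RR, f r = f q → r < q → g q < g r)
    (hg3 : ∀ s ∈ S, ∀ x ∈ S', ∃ r ∈ RR, f r = s ∧ g r = x) :
    Good (k + 1) (m + 1) (Mn M RR S f g M')
      (RR.image (fun r => toLex (Sum.inl r)) ∪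
        (S ×ˢ RR').image (fun p => toLex (Sum.inr (toLex p))))
      (CC.image (fun c => toLex (c, (⊤ : WithTop C'))) ∪
        (S ×ˢ CC').image (fun p => toLex (p.1, ((p.2 : C') : WithTop C'))))
      ((S ×ˢ S').image (fun p => toLex (p.1, ((p.2 : C') : WithTop C'))))
      (fn f g f') := by
  classical
  constructor
  · -- supp
    rintro r c (⟨r0, hr0, rfl, hc⟩ | ⟨s, hs, r', rfl, x, rfl, hx⟩)
    · refine ⟨Finset.mem_union_left _ (Finset.mem_image_of_mem _ hr0), ?_⟩
      rcases hc with ⟨c0, rfl, hc0⟩ | rfl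
      · exact Finset.mem_union_left _ (Finset.mem_image_of_mem _ (h.supp _ _ hc0).2)
      · refine Finset.mem_union_right _ (Finset.mem_image.2 ⟨(f r0, g r0), ?_, rfl⟩)
        exact Finset.mem_product.2 ⟨h.fS r0 hr0, h'.SC (hg1 r0 hr0)⟩
    · have := h'.supp _ _ hx
      refine ⟨Finset.mem_union_right _ (Finset.mem_image.2 ⟨(s, r'), ?_, rfl⟩),
        Finset.mem_union_right _ (Finset.mem_image.2 ⟨(s, x), ?_, rfl⟩)⟩
      · exact Finset.mem_product.2 ⟨hs, this.1⟩
      · exact Finset.mem_product.2 ⟨hs, this.2⟩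
  · exact step_avoid h h' hg2
  · -- SC
    intro c hc
    obtain ⟨⟨s, x⟩, hp, rfl⟩ := Finset.mem_image.1 hc
    obtain ⟨hs, hx⟩ := Finset.mem_product.1 hp
    exact Finset.mem_union_right _ (Finset.mem_image.2 ⟨(s, x),
      Finset.mem_product.2 ⟨hs, h'.SC hx⟩, rfl⟩)
  · -- fS
    intro r hr
    rcases Finset.mem_union.1 hr with hr | hr
    · obtain ⟨r0, hr0, rfl⟩ := Finset.mem_image.1 hr
      exact Finset.mem_image.2 ⟨(f r0, g r0), Finset.mem_product.2 ⟨h.fS r0 hr0, hg1 r0 hr0⟩, rfl⟩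
    · obtain ⟨⟨s, r'⟩, hp, rfl⟩ := Finset.mem_image.1 hr
      obtain ⟨hs, hr'⟩ := Finset.mem_product.1 hp
      exact Finset.mem_image.2 ⟨(s, f' r'), Finset.mem_product.2 ⟨hs, h'.fS r' hr'⟩, rfl⟩
  · -- fM
    intro r hr
    rcases Finset.mem_union.1 hr with hr | hr
    · obtain ⟨r0, hr0, rfl⟩ := Finset.mem_image.1 hr
      exact Or.inl ⟨r0, hr0, rfl, Or.inr rfl⟩
    · obtain ⟨⟨s, r'⟩, hp, rfl⟩ := Finset.mem_image.1 hr
      obtain ⟨hs, hr'⟩ := Finset.mem_product.1 hp
      exact Or.inr ⟨s, hs, r', rfl, f' r', rfl, h'.fM r' hr'⟩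
  · -- ff
    rintro r c (⟨r0, hr0, rfl, hc⟩ | ⟨s, hs, r', rfl, x, rfl, hx⟩)
    · rw [fn_inl]
      rcases hc with ⟨c0, rfl, hc0⟩ | rfl
      · rw [lexle]
        rcases (h.ff _ _ hc0).lt_or_eq with h1 | h1
        · exact Or.inl h1
        · exact Or.inr ⟨h1, le_top⟩
      · exact le_rfl
    · rw [fn_inr, lexle]
      exact Or.inr ⟨rfl, WithTop.coe_le_coe.2 (h'.ff _ _ hx)⟩
  · -- only
    rintro r c hcS (⟨r0, hr0, rfl, hc⟩ | ⟨s, hs, r', rfl, x, rfl, hx⟩)
    · rcases hc with ⟨c0, rfl, hc0⟩ | rfl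
      · obtain ⟨⟨s, x⟩, _, hp⟩ := Finset.mem_image.1 hcS
        simp at hp
      · rfl
    · obtain ⟨⟨t, y⟩, hp, hp'⟩ := Finset.mem_image.1 hcS
      have e : t = s ∧ y = x := by simpa using hp'
      obtain ⟨rfl, rfl⟩ := e
      rw [fn_inr, h'.only r' y (Finset.mem_product.1 hp).2 hx]
  · -- fib
    intro c hc
    obtain ⟨⟨s, x⟩, hp, rfl⟩ := Finset.mem_image.1 hc
    obtain ⟨hs, hx⟩ := Finset.mem_product.1 hp
    obtain ⟨r0, hr0, hfr0, hgr0⟩ := hg3 s hs x hx
    have hfib := h'.fib x hx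
    have heq : ((RR.image (fun r => (toLex (Sum.inl r) : R ⊕ₗ (C ×ₗ R'))) ∪
        (S ×ˢ RR').image (fun p => toLex (Sum.inr (toLex p)))).filter
        (fun r => fn f g f' r = toLex (s, ((x : C') : WithTop C')))) =
        insert (toLex (Sum.inl r0)) ((RR'.filter (fun r' => f' r' = x)).image
          (fun r' => (toLex (Sum.inr (toLex (s, r'))) : R ⊕ₗ (C ×ₗ R')))) := by
      ext r
      rw [Finset.mem_filter, Finset.mem_insert, Finset.mem_union]
      constructor
      · rintro ⟨hr | hr, he⟩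
        · obtain ⟨r1, hr1, rfl⟩ := Finset.mem_image.1 hr
          left
          rw [fn_inl] at he
          have e : f r1 = s ∧ g r1 = x := by simpa using he
          have : r1 = r0 := by
            rcases lt_trichotomy r1 r0 with h1 | h1 | h1
            · have := hg2 r1 hr1 r0 hr0 (by rw [e.1, hfr0]) h1
              rw [e.2, hgr0] at this
              exact absurd this (lt_irrefl _)
            · exact h1
            · have := hg2 r0 hr0 r1 hr1 (by rw [e.1, hfr0]) h1
              rw [e.2, hgr0] at this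
              exact absurd this (lt_irrefl _)
          rw [this]
        · obtain ⟨⟨t, r'⟩, hp', rfl⟩ := Finset.mem_image.1 hr
          right
          have he' : (toLex (t, ((f' r' : C') : WithTop C')) : C ×ₗ WithTop C') =
            toLex (s, ((x : C') : WithTop C')) := he
          have e : t = s ∧ f' r' = x := by simpa using he'
          obtain ⟨rfl, e2⟩ := e
          exact Finset.mem_image.2 ⟨r', Finset.mem_filter.2 ⟨(Finset.mem_product.1 hp').2, e2⟩, rfl⟩
      · rintro (rfl | hr)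
        · refine ⟨Or.inl (Finset.mem_image_of_mem _ hr0), ?_⟩
          rw [fn_inl, hfr0, hgr0]
        · obtain ⟨r', hr', rfl⟩ := Finset.mem_image.1 hr
          obtain ⟨h1, h2⟩ := Finset.mem_filter.1 hr'
          refine ⟨Or.inr (Finset.mem_image.2 ⟨(s, r'), Finset.mem_product.2 ⟨hs, h1⟩, rfl⟩), ?_⟩
          rw [fn_inr, h2]
    rw [heq, Finset.card_insert_of_notMem, Finset.card_image_of_injective, hfib]
    · intro a b hab
      simpa using hab
    · intro hmem
      obtain ⟨r', _, hr'⟩ := Finset.mem_image.1 hmem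
      simp at hr'
  · -- cnt
    intro r hr
    rcases Finset.mem_union.1 hr with hr | hr
    · obtain ⟨r0, hr0, rfl⟩ := Finset.mem_image.1 hr
      obtain ⟨T, hT, hTM⟩ := h.cnt r0 hr0
      refine ⟨insert (toLex (f r0, ((g r0 : C') : WithTop C')))
        (T.image (fun c => toLex (c, (⊤ : WithTop C')))), ?_, ?_⟩
      · rw [Finset.card_insert_of_notMem, Finset.card_image_of_injective, hT]
        · intro a b hab
          simpa using hab
        · intro hmem
          obtain ⟨c, _, hc⟩ := Finset.mem_image.1 hmem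
          simp at hc
      · intro c hc
        rcases Finset.mem_insert.1 hc with rfl | hc
        · exact Or.inl ⟨r0, hr0, rfl, Or.inr rfl⟩
        · obtain ⟨c0, hc0, rfl⟩ := Finset.mem_image.1 hc
          exact Or.inl ⟨r0, hr0, rfl, Or.inl ⟨c0, rfl, hTM c0 hc0⟩⟩
    · obtain ⟨⟨s, r'⟩, hp, rfl⟩ := Finset.mem_image.1 hr
      obtain ⟨hs, hr'⟩ := Finset.mem_product.1 hp
      obtain ⟨T, hT, hTM⟩ := h'.cnt r' hr'
      refine ⟨T.image (fun x => toLex (s, ((x : C') : WithTop C'))), ?_, ?_⟩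
      · rw [Finset.card_image_of_injective, hT]
        intro a b hab
        simpa using hab
      · intro c hc
        obtain ⟨x, hx, rfl⟩ := Finset.mem_image.1 hc
        exact Or.inr ⟨s, hs, r', rfl, x, rfl, hTM x hx⟩
  · -- inv
    intro a b hab hfab c1 c2 h1 h12 n1 n2
    rcases row_cases a with ⟨r, rfl⟩ | ⟨s, p, rfl⟩
    · rcases row_cases b with ⟨q, rfl⟩ | ⟨t, q, rfl⟩
      · have hrq : r < q := by simpa using hab
        obtain ⟨hr, _⟩ := Mn_inl n1
        obtain ⟨hq, _⟩ := Mn_inl n2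
        rw [fn_inl, fn_inl] at hfab
        have e : f r = f q ∧ g r = g q := by simpa using hfab
        have := hg2 r hr q hq e.1 hrq
        rw [e.2] at this
        exact absurd this (lt_irrefl _)
      · obtain ⟨hr, m1⟩ := Mn_inl n1
        obtain ⟨ht, x2, rfl, m2⟩ := Mn_inr n2
        clear n1 n2
        rw [fn_inl, fn_inr] at hfab
        have e : f r = t ∧ g r = f' q := by simpa using hfab
        rw [fn_inl] at h1
        rcases m1 with ⟨d1, rfl, m1⟩ | rfl
        · rw [lexlt] at h12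
          have h12' : d1 < t := by simpa using h12
          have := h.ff r d1 m1
          rw [e.1] at this
          exact absurd h12' (not_lt.2 this)
        · exact absurd h1 (lt_irrefl _)
    · rcases row_cases b with ⟨q, rfl⟩ | ⟨t, q, rfl⟩
      · simp at hab
      · obtain ⟨_, x1, rfl, m1⟩ := Mn_inr n1
        obtain ⟨_, x2, rfl, m2⟩ := Mn_inr n2
        clear n1 n2
        rw [fn_inr, fn_inr] at hfab
        have e : s = t ∧ f' p = f' q := by simpa using hfab
        obtain ⟨rfl, e2⟩ := e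
        rw [fn_inr, lexlt] at h1
        rw [lexlt] at h12
        simp only [lt_self_iff_false, false_or, true_and, WithTop.coe_lt_coe] at h1 h12
        have hpq : p < q := by
          rw [Sum.Lex.inr_lt_inr_iff, Prod.Lex.lt_iff] at hab
          simpa using hab
        exact h'.inv p q hpq e2 x1 x2 h1 h12 m1 m2

end Step

theorem ex_step {k m F' Fs N Ns : ℕ} (h : Ex k F' Fs Ns) (h' : Ex (k + 1) m F' N) :
    Ex (k + 1) (m + 1) (Fs * F') (Ns + Fs * N) := by
  classical
  obtain ⟨R, C, _, _, M, RR, CC, S, f, hG, hS, hC⟩ := h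
  obtain ⟨R', C', _, _, M', RR', CC', S', f', hG', hS', hC'⟩ := h'
  rcases isEmpty_or_nonempty C' with hemp | hne
  · -- no columns: then `S' = ∅`, `F' = 0`
    have hS0 : S' = ∅ := Finset.eq_empty_of_isEmpty S'
    have hF0 : F' = 0 := by rw [← hS', hS0]; rfl
    have hRR : RR = ∅ := by
      by_contra hcon
      obtain ⟨r, hr⟩ := Finset.nonempty_iff_ne_empty.2 hcon
      have h1 := hG.fib (f r) (hG.fS r hr)
      rw [hF0, Finset.card_eq_zero] at h1
      have : r ∈ RR.filter (fun q => f q = f r) := Finset.mem_filter.2 ⟨hr, rfl⟩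
      rw [h1] at this
      simp at this
    -- empty rows, `Ns + Fs * N` columns
    refine ⟨Fin 0, ℕ, inferInstance, inferInstance, fun _ _ => False, ∅,
      Finset.range (Ns + Fs * N), ∅, fun _ => 0, ?_, by simp [hF0], by simp⟩
    constructor
    · intro r; exact r.elim0
    · intro a; exact a.elim0
    · simp
    · intro r; exact r.elim0
    · intro r; exact r.elim0
    · intro r; exact r.elim0
    · intro r; exact r.elim0
    · intro c hc; simp at hc
    · intro r; exact r.elim0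
    · intro r; exact r.elim0
  have hg : ∀ s : C, ∃ g : R → C', s ∈ S → (∀ a ∈ RR.filter (fun r => f r = s), g a ∈ S') ∧
      (∀ a ∈ RR.filter (fun r => f r = s), ∀ b ∈ RR.filter (fun r => f r = s), a < b → g b < g a) ∧
      (∀ x ∈ S', ∃ a ∈ RR.filter (fun r => f r = s), g a = x) := by
    intro s
    by_cases hs : s ∈ S
    · obtain ⟨g, hg⟩ := exists_rev (RR.filter (fun r => f r = s)) S' (by
        rw [hG.fib s hs, hS'])
      exact ⟨g, fun _ => hg⟩
    · exact ⟨fun _ => Classical.arbitrary C', fun h => absurd h hs⟩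
  choose G hG2 using hg
  have hg1 : ∀ r ∈ RR, G (f r) r ∈ S' := by
    intro r hr
    exact (hG2 (f r) (hG.fS r hr)).1 r (Finset.mem_filter.2 ⟨hr, rfl⟩)
  have hg2 : ∀ r ∈ RR, ∀ q ∈ RR, f r = f q → r < q → G (f q) q < G (f r) r := by
    intro r hr q hq he hlt
    have := (hG2 (f r) (hG.fS r hr)).2.1 r (Finset.mem_filter.2 ⟨hr, rfl⟩) q
      (Finset.mem_filter.2 ⟨hq, he.symm⟩) hlt
    rw [he] at this ⊢
    exact this
  have hg3 : ∀ s ∈ S, ∀ x ∈ S', ∃ r ∈ RR, f r = s ∧ G (f r) r = x := by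
    intro s hs x hx
    obtain ⟨a, ha, ha'⟩ := (hG2 s hs).2.2 x hx
    obtain ⟨h1, h2⟩ := Finset.mem_filter.1 ha
    exact ⟨a, h1, h2, by rw [h2]; exact ha'⟩
  refine ⟨_, _, _, _, _, _, _, _, _, step_good (g := fun r => G (f r) r) hG hG' hg1 hg2 hg3, ?_, ?_⟩
  · rw [Finset.card_image_of_injective, Finset.card_product, hS, hS']
    rintro ⟨a, x⟩ ⟨b, y⟩ hab
    simpa using hab
  · rw [Finset.card_union_of_disjoint, Finset.card_image_of_injective,
      Finset.card_image_of_injective, Finset.card_product, hS, hC, hC']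
    · rintro ⟨a, x⟩ ⟨b, y⟩ hab
      simpa using hab
    · intro a b hab
      simpa using hab
    · rw [Finset.disjoint_left]
      intro c hc hc'
      obtain ⟨c0, _, rfl⟩ := Finset.mem_image.1 hc
      obtain ⟨⟨s, x⟩, _, hp⟩ := Finset.mem_image.1 hc'
      simp at hp

end Q110.DS

namespace Q110.DS

/-- columns are few compared with rows, for large `m` -/
theorem few (k : ℕ) : ∀ ε : ℝ, 0 < ε → ∃ m0 : ℕ, ∀ m ≥ m0, ∃ F N : ℕ, 0 < F ∧
    Ex (k + 1) m F N ∧ (N : ℝ) ≤ ε * m * F := by
  induction k with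
  | zero =>
    intro ε hε
    obtain ⟨m0, hm0⟩ := exists_nat_gt (1 / ε)
    refine ⟨m0, fun m hm => ⟨1, 1, one_pos, ex_one m, ?_⟩⟩
    have h1 : (m0 : ℝ) ≤ m := by exact_mod_cast hm
    rw [div_lt_iff₀ hε] at hm0
    push_cast
    nlinarith
  | succ k ih =>
    intro ε hε
    obtain ⟨m0, hm0⟩ := ih (ε / 2) (by positivity)
    have key : ∀ m : ℕ, ∃ F N : ℕ, m0 + 1 ≤ F ∧ Ex (k + 2) (m + 1) F N ∧
        (N : ℝ) ≤ ((k + 2 : ℝ) + (ε / 2) * m) * F := by
      intro m
      induction m with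
      | zero =>
        refine ⟨m0 + 1, (m0 + 1) * (k + 2), le_rfl, ex_base (k + 2) (m0 + 1) (by omega), ?_⟩
        push_cast
        nlinarith
      | succ m ihm =>
        obtain ⟨F', N', hF', hE', hN'⟩ := ihm
        obtain ⟨Fs, Ns, hFs, hEs, hNs⟩ := hm0 F' (by omega)
        refine ⟨Fs * F', Ns + Fs * N', ?_, ex_step hEs hE', ?_⟩
        · exact hF'.trans (Nat.le_mul_of_pos_left _ hFs)
        · push_cast
          have h1 : (0 : ℝ) ≤ Fs := by positivity
          nlinarith [mul_le_mul_of_nonneg_left hN' h1]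
    obtain ⟨m1, hm1⟩ := exists_nat_gt (2 * (k + 2 : ℝ) / ε)
    refine ⟨m1 + 1, fun m hm => ?_⟩
    obtain ⟨F, N, hF, hE, hN⟩ := key (m - 1)
    have hmm : m - 1 + 1 = m := by omega
    rw [hmm] at hE
    refine ⟨F, N, by omega, hE, hN.trans ?_⟩
    have h1 : (m1 : ℝ) ≤ m := by exact_mod_cast (by omega : m1 ≤ m)
    rw [div_lt_iff₀ hε] at hm1
    have h2 : ((m - 1 : ℕ) : ℝ) ≤ m := by exact_mod_cast Nat.sub_le m 1
    have h3 : (k + 2 : ℝ) + (ε / 2) * ((m - 1 : ℕ) : ℝ) ≤ ε * m := by nlinarith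
    exact mul_le_mul_of_nonneg_right h3 (by positivity)

/-- number of rows -/
theorem Good.card_rows {k m : ℕ} {R C : Type} [LinearOrder R] [LinearOrder C]
    {M : R → C → Prop} {RR : Finset R} {CC S : Finset C} {f : R → C}
    (h : Good k m M RR CC S f) : RR.card = S.card * m := by
  classical
  rw [Finset.card_eq_sum_card_fiberwise (f := f) (t := S) (fun r hr => h.fS r hr),
    Finset.sum_congr rfl h.fib, Finset.sum_const, smul_eq_mul]

/-- For every `k` there are `n > 0` and an `n × n` matrix avoiding `abab` with at least `k n`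
ones. -/
theorem dense (k : ℕ) : ∃ n : ℕ, 0 < n ∧ ∃ M : Fin n → Fin n → Prop, Avoid M ∧
    ∃ T : Finset (Fin n × Fin n), k * n ≤ T.card ∧ ∀ p ∈ T, M p.1 p.2 := by
  classical
  obtain ⟨m0, hm0⟩ := few k 1 one_pos
  obtain ⟨F, N, hF, ⟨R, C, _, _, M, RR, CC, S, f, hG, hS, hC⟩, hN⟩ := hm0 (m0 + 1) (by omega)
  have hrows := hG.card_rows
  have hNn : N ≤ RR.card := by
    rw [hrows, hS]
    have : (N : ℝ) ≤ ((F * (m0 + 1) : ℕ) : ℝ) := by
      push_cast at hN ⊢
      linarith
    exact_mod_cast this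
  set n := RR.card with hn
  have hn0 : 0 < n := by
    rw [hrows, hS]
    positivity
  let eR := RR.orderIsoOfFin rfl
  let eC := CC.orderIsoOfFin rfl
  have hCn : CC.card ≤ n := by rw [hC]; exact hNn
  refine ⟨n, hn0, fun i j => ∃ hj : j.val < CC.card, M (eR i) (eC ⟨j.val, hj⟩), ?_, ?_⟩
  · rintro a b hab c1 c2 c3 c4 h12 h23 h34 ⟨j1, m1⟩ ⟨j2, m2⟩ ⟨j3, m3⟩ ⟨j4, m4⟩
    exact hG.avoid (eR a) (eR b) (eR.strictMono hab) (eC ⟨c1, j1⟩) (eC ⟨c2, j2⟩) (eC ⟨c3, j3⟩)
      (eC ⟨c4, j4⟩) (eC.strictMono h12) (eC.strictMono h23) (eC.strictMono h34) m1 m2 m3 m4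
  · have hcnt : ∀ i : Fin n, ∃ T : Finset (Fin n), T.card = k + 1 ∧
        ∀ j ∈ T, ∃ hj : j.val < CC.card, M (eR i) (eC ⟨j.val, hj⟩) := by
      intro i
      obtain ⟨T, hT, hTM⟩ := hG.cnt (eR i) (eR i).2
      have hTC : ∀ c ∈ T, c ∈ CC := fun c hc => (hG.supp _ _ (hTM c hc)).2
      refine ⟨T.attach.image (fun c => ⟨(eC.symm ⟨c.1, hTC _ c.2⟩).val,
        lt_of_lt_of_le (eC.symm ⟨c.1, hTC _ c.2⟩).2 hCn⟩), ?_, ?_⟩
      · rw [Finset.card_image_of_injective, Finset.card_attach, hT]
        intro a b hab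
        have h1 : (eC.symm ⟨a.1, hTC _ a.2⟩) = (eC.symm ⟨b.1, hTC _ b.2⟩) := by
          apply Fin.ext
          simpa using hab
        have h2 := eC.symm.injective h1
        have h3 : a.1 = b.1 := by simpa using h2
        exact Subtype.ext h3
      · intro j hj
        obtain ⟨c, _, rfl⟩ := Finset.mem_image.1 hj
        refine ⟨(eC.symm ⟨c.1, hTC _ c.2⟩).2, ?_⟩
        have : (eC ⟨(eC.symm ⟨c.1, hTC _ c.2⟩).val, (eC.symm ⟨c.1, hTC _ c.2⟩).2⟩ : C) = c.1 := by
          have : (⟨(eC.symm ⟨c.1, hTC _ c.2⟩).val, (eC.symm ⟨c.1, hTC _ c.2⟩).2⟩ : Fin CC.card) =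
            eC.symm ⟨c.1, hTC _ c.2⟩ := rfl
          rw [this, OrderIso.apply_symm_apply]
        rw [this]
        exact hTM _ c.2
    choose T hT hTM using hcnt
    refine ⟨Finset.univ.biUnion (fun i => (T i).image (fun j => (i, j))), ?_, ?_⟩
    · rw [Finset.card_biUnion]
      · have : ∀ i ∈ (Finset.univ : Finset (Fin n)), ((T i).image (fun j => (i, j))).card = k + 1 := by
          intro i _
          rw [Finset.card_image_of_injective _ (Prod.mk_right_injective i), hT]
        rw [Finset.sum_congr rfl this, Finset.sum_const, Finset.card_univ, Fintype.card_fin,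
          smul_eq_mul]
        nlinarith
      · intro i _ j _ hij
        rw [Function.onFun, Finset.disjoint_left]
        intro p hp hp'
        obtain ⟨x, _, rfl⟩ := Finset.mem_image.1 hp
        obtain ⟨y, _, hy⟩ := Finset.mem_image.1 hp'
        exact hij (congrArg Prod.fst hy).symm
    · intro p hp
      obtain ⟨i, _, hi⟩ := Finset.mem_biUnion.1 hp
      obtain ⟨j, hj, rfl⟩ := Finset.mem_image.1 hi
      exact hTM i j hj

end Q110.DS
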